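import Pool.Agent.BEG.Stmts

/-!
# Squad BEG (MP_be01ff_an), row WEG: change of variables in the weak equation
-/

set_option autoImplicit false

namespace Pool.Agent.BEG.H46

open Set Filter Topology MeasureTheory
open scoped InnerProductSpace ENNReal
open Pool.Agent.BE01 Pool.Agent.BEL Pool.Agent.BEF Pool.Agent.BEN Pool.Agent.BEH Pool.Agent.BEG

noncomputable section

theorem weg (MGP : MgpStmt) (TGT : TgtStmt) : WegStmt := by
  intro d Ω g h h' F F' hΩ hg hW hh hF ψ hψ
  obtain ⟨hmp, him, hl, hr, hc, -⟩ := MGP d Ω g hΩ hg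
  have hinj : Function.Injective (mv g) := fun x y hxy => by
    rw [← hl x, ← hl y, hxy]
  have hme : MeasurableEmbedding (mv g) := hc.measurableEmbedding hinj
  obtain ⟨hT, hgr⟩ := TGT d Ω (gi g) ψ him hψ
  have e1 : ∫ x, ⟪F' x, gradient ψ x⟫_ℝ ∂(mu Ω) =
      ∫ x, ⟪F (mv g x), gradient (fun y => ψ (mv (gi g) y)) (mv g x)⟫_ℝ ∂(mu Ω) := by
    refine integral_congr_ae ?_
    filter_upwards [hF] with x hx
    rw [hx, hgr, hl]
    have e : (gi g).1.symm = g.1 := by
      show g.1.symm.symm = g.1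
      exact LinearIsometryEquiv.symm_symm _
    rw [e]
    conv_rhs => rw [← g.1.apply_symm_apply (F (mv g x))]
    rw [LinearIsometryEquiv.inner_map_map]
  have e2 : ∫ x, h' x * ψ x ∂(mu Ω) =
      ∫ x, h (mv g x) * (fun y => ψ (mv (gi g) y)) (mv g x) ∂(mu Ω) := by
    refine integral_congr_ae ?_
    filter_upwards [hh] with x hx
    show h' x * ψ x = h (mv g x) * ψ (mv (gi g) (mv g x))
    rw [hx, hl]
  rw [e1, e2, hmp.integral_comp hme
    (fun y => ⟪F y, gradient (fun y => ψ (mv (gi g) y)) y⟫_ℝ), hmp.integral_comp hme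
    (fun y => h y * (fun y => ψ (mv (gi g) y)) y)]
  exact hW _ hT

end

end Pool.Agent.BEG.H46
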